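import Pool.Agent.Run7.h168.Near.One
import Pool.Agent.Run7.h168.Lin.Cut

/-!
# All polynomial values at once: the polynomials with simple values at a scale
-/

set_option autoImplicit false

namespace Pool.Agent.Run7.h168.Poly

open Finset Pool.Agent.R356 Pool.Agent.N743.SS Pool.Agent.R473.JC Pool.Agent.Run7.h168.Near
  Pool.Agent.Run7.h168.Lin Pool.Agent.Run7.h168.Mult

variable {n : ℕ}

lemma norm_val_le (ξ : ℂ) (x : Fin n → ℝ) (W : ℝ) (hW : 1 ≤ W) (hξ : ‖ξ‖ ≤ W) (hx : ∀ i, |x i| ≤ W) (D : ℕ)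
    (F : MvPolynomial (Fin (n + 1)) ℤ) (hF : F.totalDegree ≤ D) : ‖val ξ x F‖ ≤ W ^ D * lenM F := by
  unfold Near.val
  rw [MvPolynomial.aeval_def, MvPolynomial.eval₂_eq']
  refine (norm_sum_le _ _).trans ?_
  unfold lenM
  rw [mul_sum]
  refine sum_le_sum fun s hs => ?_
  rw [norm_mul, mul_comm]
  have h1 : ‖(algebraMap ℤ ℂ) (F.coeff s)‖ = |((F.coeff s : ℤ) : ℝ)| := by
    rw [algebraMap_int_eq, eq_intCast, Complex.norm_intCast]
  rw [h1]
  refine mul_le_mul_of_nonneg_right ?_ (abs_nonneg _)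
  rw [norm_prod]
  have h2 : ∏ i, ‖(Fin.cons ξ (fun i => ((x i : ℝ) : ℂ)) : Fin (n + 1) → ℂ) i ^ s i‖ ≤ ∏ i, W ^ s i := by
    refine Finset.prod_le_prod (fun i _ => norm_nonneg _) fun i _ => ?_
    rw [norm_pow]
    refine pow_le_pow_left₀ (norm_nonneg _) ?_ _
    refine Fin.cases ?_ (fun j => ?_) i
    · rw [Fin.cons_zero]; exact hξ
    · rw [Fin.cons_succ, Complex.norm_real, Real.norm_eq_abs]; exact hx j
  refine h2.trans ?_
  rw [Finset.prod_pow_eq_pow_sum]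
  refine pow_le_pow_right₀ hW ?_
  have h3 := MvPolynomial.le_totalDegree hs
  have h4 : s.sum (fun _ e => e) = ∑ i, s i := Finsupp.sum_fintype _ _ (fun _ => rfl)
  omega

/-- the value of a polynomial at real numbers -/
noncomputable def rval (ξ : ℝ) (x : Fin n → ℝ) (F : MvPolynomial (Fin (n + 1)) ℤ) : ℝ :=
  MvPolynomial.aeval (Fin.cons ξ x : Fin (n + 1) → ℝ) F

lemma val_rval (ξ : ℝ) (x : Fin n → ℝ) (F : MvPolynomial (Fin (n + 1)) ℤ) : val (ξ : ℂ) x F = ((rval ξ x F : ℝ) : ℂ) := by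
  have h : (MvPolynomial.aeval (Fin.cons (ξ : ℂ) (fun i => ((x i : ℝ) : ℂ)) : Fin (n + 1) → ℂ) :
      MvPolynomial (Fin (n + 1)) ℤ →ₐ[ℤ] ℂ).toRingHom =
      (algebraMap ℝ ℂ).comp (MvPolynomial.aeval (Fin.cons ξ x : Fin (n + 1) → ℝ) :
        MvPolynomial (Fin (n + 1)) ℤ →ₐ[ℤ] ℝ).toRingHom := by
    refine MvPolynomial.ringHom_ext (fun r => by simp) (fun i => ?_)
    refine Fin.cases ?_ (fun j => ?_) i <;> simp
  exact congrArg (fun f : MvPolynomial (Fin (n + 1)) ℤ →+* ℂ => f F) h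

lemma totalDegree_aeval_le (F : MvPolynomial (Fin (n + 1)) ℤ) (D r : ℕ) (hF : F.totalDegree ≤ D) (P : Polynomial ℤ)
    (hP : P.natDegree ≤ r) : (Polynomial.aeval F P).totalDegree ≤ r * D := by
  rw [Polynomial.aeval_eq_sum_range]
  refine (MvPolynomial.totalDegree_finsetSum_le (d := r * D) fun i hi => ?_)
  rw [Finset.mem_range] at hi
  refine (MvPolynomial.totalDegree_smul_le _ _).trans ((MvPolynomial.totalDegree_pow _ _).trans ?_)
  exact Nat.mul_le_mul (by omega) hF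

/-- the values of the shifted and scaled polynomial -/
lemma shift_scale (F : MvPolynomial (Fin (n + 1)) ℤ) (m z : ℤ) (P : Polynomial ℤ) (hP : P ≠ 0) (r : ℕ)
    (hr : P.natDegree ≤ r) : ∃ Q : Polynomial ℤ, Q ≠ 0 ∧ Q.natDegree ≤ r ∧
      Polynomial.aeval F Q = Polynomial.aeval (F - MvPolynomial.C (m * z)) (P.scaleRoots m) := by
  refine ⟨(P.scaleRoots m).comp (Polynomial.X - Polynomial.C (m * z)), ?_, ?_, ?_⟩
  · intro h0
    rw [Polynomial.comp_eq_zero_iff] at h0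
    rcases h0 with h0 | ⟨_, h0⟩
    · exact Polynomial.scaleRoots_ne_zero hP m h0
    · have h1 := congrArg Polynomial.natDegree h0
      rw [Polynomial.natDegree_X_sub_C, Polynomial.natDegree_C] at h1
      exact one_ne_zero h1
  · rw [Polynomial.natDegree_comp, Polynomial.natDegree_X_sub_C, mul_one, Polynomial.natDegree_scaleRoots]
    exact hr
  · rw [Polynomial.aeval_comp]
    congr 1
    simp

lemma aeval_scaleRoots (y : ℝ) (m : ℤ) (P : Polynomial ℤ) :
    Polynomial.aeval ((m : ℝ) * y) (P.scaleRoots m) = (m : ℝ) ^ P.natDegree * Polynomial.aeval y P := by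
  have h := Polynomial.scaleRoots_eval₂_mul (p := P) (algebraMap ℤ ℝ) y m
  simpa [Polynomial.aeval_def] using h

/-- **The polynomials with simple values at a scale.** -/
theorem simple_values (x : Fin n → ℝ) (hx : MeasM x) (D r K : ℕ) : ∃ θ : ℝ, 0 < θ ∧ ∀ T : ℝ, 1 ≤ T →
    ∃ X₀ : ℝ, 1 ≤ X₀ ∧ ∀ ξ : ℝ, |ξ| ≤ T → ∀ X : ℝ, X₀ ≤ X →
      ∃ R : Fin (K + 1) → MvPolynomial (Fin (n + 1)) ℤ,
        (∀ j, Irreducible (R j) ∧ 0 < (R j).degreeOf 0 ∧ (R j).totalDegree ≤ r * D + 1 ∧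
          ∀ s, |(((R j).coeff s : ℤ) : ℝ)| ≤ Real.exp X) ∧
        ∀ F : MvPolynomial (Fin (n + 1)) ℤ, F.totalDegree ≤ D →
          (∀ s, |((F.coeff s : ℤ) : ℝ)| ≤ Real.exp (θ * X)) →
          (∀ j, ∀ P : Polynomial ℤ, P ≠ 0 → P.natDegree ≤ r → ¬ R j ∣ Polynomial.aeval F P) →
          ∀ m : ℤ, 1 ≤ m → (m : ℝ) ≤ Real.exp (θ * X) → ∀ b : ℕ, 2 ≤ b → Real.log b ≤ θ * X →
          ∀ L : ℕ, X ≤ L * Real.log b → ∀ k : ℕ,
            Cuts b (digit b (rval ξ x F / m)) r K L k → θ * X < k * Real.log b := by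
  classical
  obtain ⟨a, ha1, hgood⟩ := good_of_desc r
  obtain ⟨κ, K₁, hκ, hK₁, hloc⟩ := local_structure x hx (r * D + 1) (by omega)
  -- the ratio of the scales
  obtain ⟨g, hg⟩ : ∃ g : ℝ, g = 2 * r + 5 * a + 1 := ⟨_, rfl⟩
  have hr0 : (0 : ℝ) ≤ r := Nat.cast_nonneg r
  have hg1 : 1 ≤ g := by rw [hg]; linarith
  obtain ⟨η, hη⟩ : ∃ η : ℝ, η = (4 * g * (1 + κ))⁻¹ := ⟨_, rfl⟩
  have hη0 : 0 < η := by rw [hη]; positivity
  have hηg : η * (g * (1 + κ)) = 1 / 4 := by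
    rw [hη]
    field_simp
  have hηg1 : η * g ≤ 1 / 4 := by
    have h1 : η * g ≤ η * (g * (1 + κ)) := by
      refine mul_le_mul_of_nonneg_left ?_ hη0.le
      nlinarith
    linarith
  have hη4 : η ≤ 1 / 4 := by
    have h1 : η * 1 ≤ η * g := mul_le_mul_of_nonneg_left hg1 hη0.le
    linarith
  have hη1 : η ≤ 1 := by linarith
  have hηK : η ^ (K + 1) ≤ η := pow_le_of_le_one hη0.le hη1 (by omega)
  refine ⟨η ^ (K + 1), by positivity, fun T hT => ?_⟩
  obtain ⟨C, hC, hloc⟩ := hloc T hT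
  obtain ⟨W, hW1, hWT, hWx⟩ : ∃ W : ℝ, 1 ≤ W ∧ T ≤ W ∧ ∀ i, |x i| ≤ W := by
    have h0 : 0 ≤ ∑ i, |x i| := Finset.sum_nonneg fun i _ => abs_nonneg (x i)
    refine ⟨T + ∑ i, |x i|, by linarith, by linarith, fun i => ?_⟩
    have := Finset.single_le_sum (f := fun i => |x i|) (fun i _ => abs_nonneg _) (Finset.mem_univ i)
    linarith
  obtain ⟨C₁, hC₁⟩ : ∃ C₁ : ℝ, C₁ = (1 + W ^ D) * (D + 1) ^ (n + 1) + 1 := ⟨_, rfl⟩
  have hC₁1 : 1 ≤ C₁ := by
    rw [hC₁]
    have : 0 ≤ (1 + W ^ D) * ((D : ℝ) + 1) ^ (n + 1) := by positivity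
    linarith
  obtain ⟨G, hG⟩ : ∃ G : ℝ, G = (r + 1) * C₁ ^ r := ⟨_, rfl⟩
  have hG1 : 1 ≤ G := by
    rw [hG]
    exact one_le_mul_of_one_le_of_one_le (by linarith) (one_le_pow₀ hC₁1)
  have hC0 : 0 < C := by linarith
  -- the threshold for the scales
  obtain ⟨Z₀, hZ₀1, hZ₀⟩ : ∃ Z₀ : ℝ, 1 ≤ Z₀ ∧ ∀ Z, Z₀ ≤ Z → Real.log (2 * Z + 1) ≤ η * Z ∧
      Real.log C + κ * Real.log G < Z / 4 ∧ Real.log (K₁ * G) ≤ Z / 2 := by
    refine ⟨1 + 4 * |Real.log C + κ * Real.log G| + 2 * |Real.log (K₁ * G)| + (6 / η) ^ 2, ?_, fun Z hZ => ⟨?_, ?_, ?_⟩⟩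
    · have := abs_nonneg (Real.log C + κ * Real.log G)
      have := abs_nonneg (Real.log (K₁ * G))
      have : 0 ≤ (6 / η) ^ 2 := by positivity
      linarith
    · have h1 : 1 ≤ Z := by
        have := abs_nonneg (Real.log C + κ * Real.log G)
        have := abs_nonneg (Real.log (K₁ * G))
        have : 0 ≤ (6 / η) ^ 2 := by positivity
        linarith
      have h2 : (6 / η) ^ 2 ≤ Z := by
        have := abs_nonneg (Real.log C + κ * Real.log G)
        have := abs_nonneg (Real.log (K₁ * G))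
        linarith
      have h3 : 6 / η ≤ Real.sqrt Z := Real.le_sqrt_of_sq_le h2
      have h4 : Real.log (2 * Z + 1) ≤ 6 * Real.sqrt Z := by
        have h5 : Real.log (2 * Z + 1) ≤ Real.log (4 * Z) := Real.log_le_log (by linarith) (by linarith)
        have h6 : Real.log (4 * Z) = 2 * Real.log (2 * Real.sqrt Z) := by
          have e : 4 * Z = (2 * Real.sqrt Z) ^ 2 := by
            rw [mul_pow, Real.sq_sqrt (by linarith)]; norm_num
          rw [e, Real.log_pow]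
          norm_num
        have h7 : Real.log (2 * Real.sqrt Z) ≤ 2 * Real.sqrt Z - 1 :=
          Real.log_le_sub_one_of_pos (by positivity)
        have h8 : 0 ≤ Real.sqrt Z := Real.sqrt_nonneg _
        linarith
      have h5 : 6 ≤ η * Real.sqrt Z := by
        rw [div_le_iff₀ hη0] at h3
        linarith
      calc Real.log (2 * Z + 1) ≤ 6 * Real.sqrt Z := h4
        _ ≤ (η * Real.sqrt Z) * Real.sqrt Z := mul_le_mul_of_nonneg_right h5 (Real.sqrt_nonneg _)
        _ = η * Z := by rw [mul_assoc, Real.mul_self_sqrt (by linarith)]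
    · have := le_abs_self (Real.log C + κ * Real.log G)
      have := abs_nonneg (Real.log (K₁ * G))
      have : 0 ≤ (6 / η) ^ 2 := by positivity
      linarith
    · have := le_abs_self (Real.log (K₁ * G))
      have := abs_nonneg (Real.log C + κ * Real.log G)
      have : 0 ≤ (6 / η) ^ 2 := by positivity
      linarith
  refine ⟨Z₀ / η ^ (K + 1), ?_, ?_⟩
  · rw [le_div_iff₀ (by positivity), one_mul]
    exact le_trans (hηK.trans hη1) hZ₀1
  intro ξ hξ X hX
  have hX0 : 0 < X := by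
    have : 0 < Z₀ / η ^ (K + 1) := by positivity
    linarith
  obtain ⟨Z, hZ⟩ : ∃ Z : ℕ → ℝ, Z = fun j => η ^ j * X := ⟨_, rfl⟩
  have hZ0 : ∀ j, 0 < Z j := fun j => by rw [hZ]; positivity
  have hZs : ∀ j, Z (j + 1) = η * Z j := fun j => by rw [hZ]; show η ^ (j + 1) * X = η * (η ^ j * X); ring
  have hZj : ∀ j, j ≤ K + 1 → Z₀ ≤ Z j := by
    intro j hj
    rw [hZ]
    show Z₀ ≤ η ^ j * X
    have h1 : Z₀ ≤ X * η ^ (K + 1) := by rwa [div_le_iff₀ (by positivity)] at hX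
    have h2 : η ^ (K + 1) ≤ η ^ j := pow_le_pow_of_le_one hη0.le hη1 hj
    have h3 : X * η ^ (K + 1) ≤ X * η ^ j := mul_le_mul_of_nonneg_left h2 hX0.le
    linarith
  have hZX : ∀ j, Z j ≤ X := fun j => by
    rw [hZ]; exact mul_le_of_le_one_left hX0.le (pow_le_one₀ hη0.le hη1)
  have hξc : ‖(ξ : ℂ)‖ ≤ T := by rw [Complex.norm_real, Real.norm_eq_abs]; exact hξ
  -- the heights
  obtain ⟨Hj, hHj⟩ : ∃ Hj : ℕ → ℝ, Hj = fun j => G * Real.exp (g * (η * Z j)) := ⟨_, rfl⟩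
  have hHj1 : ∀ j, 1 ≤ Hj j := fun j => by
    rw [hHj]
    have := hZ0 j
    exact one_le_mul_of_one_le_of_one_le hG1 (Real.one_le_exp (by positivity))
  choose R hR using fun j : Fin (K + 1) => hloc (ξ : ℂ) hξc (Hj j) (hHj1 j)
  refine ⟨R, fun j => ?_, ?_⟩
  · obtain ⟨h1, h2, h3, _, _⟩ := hR j
    refine ⟨h1, h2, h3.2.1, fun s => (h3.2.2 s).trans ?_⟩
    have h4 := (hZ₀ (Z (j : ℕ)) (hZj _ (by have := j.2; omega))).2.2
    rw [hHj]
    have hK₁G : 0 < K₁ * G := by positivity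
    have h5 : K₁ * G = Real.exp (Real.log (K₁ * G)) := (Real.exp_log hK₁G).symm
    show K₁ * (G * Real.exp (g * (η * Z j))) ≤ Real.exp X
    rw [← mul_assoc, h5, ← Real.exp_add]
    refine Real.exp_le_exp.2 ?_
    have h6 : g * (η * Z j) ≤ 1 / 4 * Z j := by
      calc g * (η * Z j) = (η * g) * Z j := by ring
        _ ≤ 1 / 4 * Z j := mul_le_mul_of_nonneg_right hηg1 (hZ0 _).le
    have := hZX j
    have := hZ0 j
    linarith
  intro F hFD hFH hFR m hm1 hmH b hb hbX L hL k hcuts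
  by_contra hk
  push Not at hk
  obtain ⟨S, hSK, hS⟩ := hcuts
  obtain ⟨lb, hlb⟩ : ∃ lb : ℝ, lb = Real.log b := ⟨_, rfl⟩
  rw [← hlb] at hbX hL hk
  have hlb2 : 1 / 2 < lb := by rw [hlb]; exact half_lt_log hb
  have hlb0 : 0 < lb := by linarith
  -- the windows
  obtain ⟨v, hv⟩ : ∃ v : ℕ → ℕ, v = fun j => ⌊Z j / lb⌋₊ := ⟨_, rfl⟩
  obtain ⟨u, hu⟩ : ∃ u : ℕ → ℕ, u = fun j => ⌈Z (j + 1) / lb⌉₊ := ⟨_, rfl⟩
  have hv1 : ∀ j, (v j : ℝ) * lb ≤ Z j := fun j => by
    rw [hv, ← le_div_iff₀ hlb0]; exact Nat.floor_le (div_nonneg (hZ0 j).le hlb0.le)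
  have hv2 : ∀ j, Z j ≤ v j * lb + lb := fun j => by
    have h1 := Nat.lt_floor_add_one (Z j / lb)
    rw [div_lt_iff₀ hlb0] at h1
    rw [hv]
    linarith
  have hu1 : ∀ j, (u j : ℝ) * lb ≤ Z (j + 1) + lb := fun j => by
    have h1 := Nat.ceil_lt_add_one (show 0 ≤ Z (j + 1) / lb from div_nonneg (hZ0 (j + 1)).le hlb0.le)
    have h2 : (u j : ℝ) ≤ Z (j + 1) / lb + 1 := by rw [hu]; exact h1.le
    calc (u j : ℝ) * lb ≤ (Z (j + 1) / lb + 1) * lb := mul_le_mul_of_nonneg_right h2 hlb0.le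
      _ = Z (j + 1) + lb := by field_simp
  have hvu : ∀ j, v (j + 1) ≤ u j := fun j => by
    rw [hv, hu]
    exact_mod_cast (Nat.floor_le (div_nonneg (hZ0 (j + 1)).le hlb0.le)).trans (Nat.le_ceil _)
  have hvanti : ∀ i j, i ≤ j → v j ≤ v i := by
    intro i j hij
    rw [hv]
    refine Nat.floor_le_floor (div_le_div_of_nonneg_right ?_ hlb0.le)
    rw [hZ]
    exact mul_le_mul_of_nonneg_right (pow_le_pow_of_le_one hη0.le hη1 hij) hX0.le
  have hvL : ∀ j, v j ≤ L := by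
    intro j
    have h1 : v j ≤ v 0 := hvanti 0 j (Nat.zero_le _)
    have h2 : v 0 ≤ L := by
      have h3 : (v 0 : ℝ) ≤ L := by
        have h4 := hv1 0
        have h5 := hZX 0
        have h6 : (v 0 : ℝ) * lb ≤ L * lb := by linarith
        exact le_of_mul_le_mul_right h6 hlb0
      exact_mod_cast h3
    omega
  -- sizes of the parameters
  have hθZ : ∀ j, j ≤ K → η ^ (K + 1) * X ≤ η * Z j := by
    intro j hj
    rw [← hZs, hZ]
    exact mul_le_mul_of_nonneg_right (pow_le_pow_of_le_one hη0.le hη1 (by omega)) hX0.le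
  have huv : ∀ j, j ≤ K → u j ≤ v j := by
    intro j hj
    have h1 := hu1 j
    have h2 := hv2 j
    rw [hZs] at h1
    have h3 := hθZ j hj
    have h4 : η * Z j ≤ 1 / 4 * Z j := mul_le_mul_of_nonneg_right hη4 (hZ0 j).le
    have h5 : (u j : ℝ) * lb ≤ v j * lb := by linarith
    have h6 : (u j : ℝ) ≤ v j := le_of_mul_le_mul_right h5 hlb0
    exact_mod_cast h6
  -- a free window
  obtain ⟨j, hjK, hjfree⟩ : ∃ j, j ≤ K ∧ ∀ t ∈ S, t ≤ u j ∨ v j < t := by
    by_contra hcon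
    push Not at hcon
    choose! t ht1 ht2 ht3 using hcon
    have hinj : Set.InjOn t (Finset.range (K + 1) : Set ℕ) := by
      have hlt : ∀ i j, i < j → j ≤ K → t j < t i := by
        intro i j hij hj
        have h1 := ht3 j hj
        have h2 := ht2 i (by omega)
        have h3 := hvanti (i + 1) j hij
        have h4 := hvu i
        omega
      intro i hi j hj hij
      simp only [Finset.coe_range, Set.mem_Iio] at hi hj
      rcases Nat.lt_trichotomy i j with h | h | h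
      · have := hlt i j h (by omega); omega
      · exact h
      · have := hlt j i h (by omega); omega
    have h1 : (Finset.range (K + 1)).card ≤ S.card := by
      refine Finset.card_le_card_of_injOn t (fun i hi => ?_) hinj
      have hi' : i ≤ K := by
        have := Finset.mem_range.1 (Finset.mem_coe.1 hi)
        omega
      exact Finset.mem_coe.2 (ht1 i hi')
    rw [Finset.card_range] at h1
    omega
  have hdesc := hS (u j) (v j) (huv j hjK) (hvL j) hjfree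
  -- the polynomial for the fractional part
  obtain ⟨y, hy⟩ : ∃ y : ℝ, y = rval ξ x F / m := ⟨_, rfl⟩
  rw [← hy] at hdesc
  have hfr : |Int.fract y| ≤ 1 := by
    rw [abs_of_nonneg (Int.fract_nonneg y)]
    exact (Int.fract_lt_one y).le
  obtain ⟨P, hP0, hPd, hPc, hPv⟩ := hgood (Int.fract y) hfr b hb (digit b y) (fun l hl => digit_fract b y l hl) k (v j)
    (u j) (huv j hjK) hdesc
  rw [← hlb] at hPc hPv
  have hZ00 := hZ₀ (Z j) (hZj j (by omega))
  have hθj := hθZ j hjK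
  have hE : a * (((k : ℝ) + 1 + u j) * lb + Real.log (v j + 1)) ≤ 5 * a * (η * Z j) := by
    have h1 : Real.log ((v j : ℝ) + 1) ≤ η * Z j := by
      refine (Real.log_le_log (by positivity) ?_).trans hZ00.1
      have h2 : (v j : ℝ) * (1 / 2) ≤ v j * lb := mul_le_mul_of_nonneg_left hlb2.le (Nat.cast_nonneg _)
      have := hv1 j
      linarith
    have h2 := hu1 j
    rw [hZs] at h2
    have h3 : ((k : ℝ) + 1 + u j) * lb + Real.log (v j + 1) ≤ 5 * (η * Z j) := by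
      have e : ((k : ℝ) + 1 + u j) * lb = k * lb + lb + u j * lb := by ring
      rw [e]
      linarith
    calc a * (((k : ℝ) + 1 + u j) * lb + Real.log (v j + 1)) ≤ a * (5 * (η * Z j)) :=
          mul_le_mul_of_nonneg_left h3 (by linarith)
      _ = _ := by ring
  obtain ⟨E, hEd⟩ : ∃ E : ℝ, E = Real.exp (η * Z j) := ⟨_, rfl⟩
  have hηZ0 : 0 < η * Z j := mul_pos hη0 (hZ0 j)
  have hE1 : 1 ≤ E := by rw [hEd]; exact Real.one_le_exp hηZ0.le
  have hE0 : 0 < E := by linarith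
  have hFE : ∀ s, |((F.coeff s : ℤ) : ℝ)| ≤ E := fun s => (hFH s).trans (by rw [hEd]; exact Real.exp_le_exp.2 hθj)
  have hmE : (m : ℝ) ≤ E := hmH.trans (by rw [hEd]; exact Real.exp_le_exp.2 hθj)
  have hm0 : (0 : ℝ) < m := by exact_mod_cast (by omega : 0 < m)
  have hPcE : ∀ i, |((P.coeff i : ℤ) : ℝ)| ≤ Real.exp (5 * a * (η * Z j)) := fun i =>
    (hPc i).trans (Real.exp_le_exp.2 hE)
  -- the shifted polynomial
  obtain ⟨F', hF'⟩ : ∃ F' : MvPolynomial (Fin (n + 1)) ℤ, F' = F - MvPolynomial.C (m * ⌊y⌋) := ⟨_, rfl⟩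
  have hF'D : F'.totalDegree ≤ D := by
    rw [hF']
    refine (MvPolynomial.totalDegree_sub _ _).trans (max_le hFD ?_)
    rw [MvPolynomial.totalDegree_C]
    exact Nat.zero_le _
  have hlenF : lenM F ≤ (D + 1) ^ (n + 1) * E := lenM_le D F hFD E hFE
  have hrF : |rval ξ x F| ≤ W ^ D * ((D + 1) ^ (n + 1) * E) := by
    have h1 := norm_val_le (ξ : ℂ) x W hW1 (hξc.trans hWT) hWx D F hFD
    rw [val_rval, Complex.norm_real, Real.norm_eq_abs] at h1
    exact h1.trans (mul_le_mul_of_nonneg_left hlenF (by positivity))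
  have hmy : (m : ℝ) * y = rval ξ x F := by rw [hy]; field_simp
  have hmf : |((m * ⌊y⌋ : ℤ) : ℝ)| ≤ W ^ D * ((D + 1) ^ (n + 1) * E) + E := by
    have h1 : ((m * ⌊y⌋ : ℤ) : ℝ) = rval ξ x F - m * Int.fract y := by
      have h2 : Int.fract y = y - ⌊y⌋ := rfl
      rw [h2, mul_sub, hmy]
      push_cast
      ring
    rw [h1]
    refine (abs_sub _ _).trans (add_le_add hrF ?_)
    rw [abs_mul, abs_of_pos hm0]
    calc (m : ℝ) * |Int.fract y| ≤ m * 1 := mul_le_mul_of_nonneg_left hfr hm0.le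
      _ ≤ E := by rw [mul_one]; exact hmE
  have hlenF' : lenM F' ≤ C₁ * E := by
    have h1 : lenM F' ≤ lenM F + |((m * ⌊y⌋ : ℤ) : ℝ)| := by
      rw [hF', sub_eq_add_neg]
      refine (lenM_add _ _).trans (add_le_add le_rfl ?_)
      rw [isLenM.neg]
      have h2 := lenM_eq (MvPolynomial.C (m * ⌊y⌋) : MvPolynomial (Fin (n + 1)) ℤ) {0} (by
        intro s hs
        rw [MvPolynomial.mem_support_iff, MvPolynomial.coeff_C] at hs
        rw [Finset.mem_singleton]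
        by_contra h
        exact hs (if_neg (Ne.symm h)))
      rw [h2, Finset.sum_singleton, MvPolynomial.coeff_C, if_pos rfl]
    rw [hC₁]
    calc lenM F' ≤ (D + 1) ^ (n + 1) * E + (W ^ D * ((D + 1) ^ (n + 1) * E) + E) := by linarith
      _ = _ := by ring
  -- the relation
  obtain ⟨Q, hQ⟩ : ∃ Q : Polynomial ℤ, Q = P.scaleRoots m := ⟨_, rfl⟩
  have hmr : ∀ i ≤ r, (m : ℝ) ^ i ≤ E ^ r := by
    intro i hi
    have hm1' : (1 : ℝ) ≤ m := by exact_mod_cast hm1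
    calc (m : ℝ) ^ i ≤ (m : ℝ) ^ r := pow_le_pow_right₀ hm1' hi
      _ ≤ E ^ r := pow_le_pow_left₀ hm0.le hmE r
  have hQc : ∀ i, |((Q.coeff i : ℤ) : ℝ)| ≤ Real.exp (5 * a * (η * Z j)) * E ^ r := by
    intro i
    rw [hQ, Polynomial.coeff_scaleRoots]
    push_cast
    rw [abs_mul, abs_pow, abs_of_pos hm0]
    exact mul_le_mul (hPcE i) (hmr _ (by omega)) (by positivity) (by positivity)
  have hQd : Q.natDegree ≤ r := by rw [hQ, Polynomial.natDegree_scaleRoots]; exact hPd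
  obtain ⟨Rr, hRr⟩ : ∃ Rr : MvPolynomial (Fin (n + 1)) ℤ, Rr = Polynomial.aeval F' Q := ⟨_, rfl⟩
  obtain ⟨Q', hQ'0, hQ'd, hQ'e⟩ := shift_scale F m ⌊y⌋ P hP0 r hPd
  rw [← hF', ← hQ, ← hRr] at hQ'e
  obtain ⟨hR1, hR2, hR3, hR4, _⟩ := hR ⟨j, by omega⟩
  have hRr0 : Rr ≠ 0 := by
    intro h0
    exact hFR ⟨j, by omega⟩ Q' hQ'0 hQ'd (by rw [hQ'e, h0]; exact dvd_zero _)
  have hRrD : Rr.totalDegree ≤ r * D + 1 := by
    rw [hRr]
    exact (totalDegree_aeval_le F' D r hF'D Q hQd).trans (Nat.le_succ _)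
  have hRrH : ∀ s, |((Rr.coeff s : ℤ) : ℝ)| ≤ Hj j := by
    intro s
    refine (le_lenM Rr s).trans ?_
    rw [hRr]
    refine (isLen_aeval isLenM F' Q r hQd _ hQc).trans ?_
    have h1 : max 1 (lenM F') ≤ C₁ * E := max_le (one_le_mul_of_one_le_of_one_le hC₁1 hE1) hlenF'
    have h2 : max 1 (lenM F') ^ r ≤ (C₁ * E) ^ r := pow_le_pow_left₀ (le_trans zero_le_one (le_max_left _ _)) h1 r
    rw [hHj]
    show Real.exp (5 * a * (η * Z j)) * E ^ r * ((r + 1) * max 1 (lenM F') ^ r) ≤ G * Real.exp (g * (η * Z j))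
    calc Real.exp (5 * a * (η * Z j)) * E ^ r * ((r + 1) * max 1 (lenM F') ^ r)
        ≤ Real.exp (5 * a * (η * Z j)) * E ^ r * ((r + 1) * (C₁ * E) ^ r) := by gcongr
      _ = G * (Real.exp (5 * a * (η * Z j)) * E ^ (r + r)) := by rw [hG, mul_pow, pow_add]; ring
      _ = G * Real.exp ((5 * a + 2 * r) * (η * Z j)) := by
          rw [hEd, ← Real.exp_nat_mul, ← Real.exp_add]
          congr 2
          push_cast
          ring
      _ ≤ G * Real.exp (g * (η * Z j)) := by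
          refine mul_le_mul_of_nonneg_left (Real.exp_le_exp.2 (mul_le_mul_of_nonneg_right ?_ hηZ0.le)) (by linarith)
          rw [hg]; linarith
  have hval : ‖val (ξ : ℂ) x Rr‖ ≤ E ^ r * Real.exp (5 * a * (η * Z j) - Z j + η * Z j) := by
    have h1 : rval ξ x Rr = (m : ℝ) ^ P.natDegree * Polynomial.aeval (Int.fract y) P := by
      have h2 : rval ξ x F' = m * Int.fract y := by
        rw [hF']
        unfold rval
        rw [map_sub, MvPolynomial.aeval_C]
        have h3 : Int.fract y = y - ⌊y⌋ := rfl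
        have h4 : MvPolynomial.aeval (Fin.cons ξ x : Fin (n + 1) → ℝ) F = m * y := hmy.symm
        rw [h4, h3, algebraMap_int_eq, eq_intCast]
        push_cast
        ring
      rw [← aeval_scaleRoots, ← h2, hRr, hQ]
      unfold rval
      exact (Polynomial.aeval_algHom_apply (MvPolynomial.aeval (Fin.cons ξ x : Fin (n + 1) → ℝ)) F' (P.scaleRoots m)).symm
    rw [val_rval, Complex.norm_real, Real.norm_eq_abs, h1, abs_mul, abs_pow, abs_of_pos hm0]
    refine mul_le_mul (hmr _ hPd) (hPv.trans (Real.exp_le_exp.2 ?_)) (abs_nonneg _) (by positivity)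
    have := hv2 j
    linarith
  rcases hR4 Rr ⟨hRr0, hRrD, hRrH⟩ with h1 | ⟨h1, _⟩
  · have h2 := h1.trans hval
    have h3 : C⁻¹ * Hj j ^ (-κ) = Real.exp (-(Real.log C + κ * Real.log G + κ * (g * (η * Z j)))) := by
      have e1 : Hj j = Real.exp (Real.log G + g * (η * Z j)) := by
        rw [hHj, Real.exp_add, Real.exp_log (by linarith)]
      rw [e1, ← Real.exp_mul]
      nth_rewrite 1 [← Real.exp_log hC0]
      rw [← Real.exp_neg, ← Real.exp_add]
      congr 1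
      ring
    have h4 : E ^ r * Real.exp (5 * a * (η * Z j) - Z j + η * Z j) =
        Real.exp ((r + 5 * a + 1) * (η * Z j) - Z j) := by
      rw [hEd, ← Real.exp_nat_mul, ← Real.exp_add]
      congr 1
      ring
    rw [h3, h4, Real.exp_le_exp] at h2
    have h5 : (r + 5 * a + 1) * (η * Z j) ≤ g * (η * Z j) := by
      refine mul_le_mul_of_nonneg_right ?_ hηZ0.le
      rw [hg]; linarith
    have h6 : g * (η * Z j) + κ * (g * (η * Z j)) = 1 / 4 * Z j := by
      calc g * (η * Z j) + κ * (g * (η * Z j)) = (η * (g * (1 + κ))) * Z j := by ring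
        _ = _ := by rw [hηg]
    have h7 := hZ00.2.1
    have h8 := hZ0 j
    linarith
  · exact hFR ⟨j, by omega⟩ Q' hQ'0 hQ'd (by rw [hQ'e]; exact h1)

end Pool.Agent.Run7.h168.Poly
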